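import Mathlib

namespace Pool.Agent.MP_9f168b_al

universe u

/-- The map `r × id` on `X³`. -/
def r12 {X : Type u} (r : X × X → X × X) (p : X × X × X) : X × X × X :=
  ((r (p.1, p.2.1)).1, (r (p.1, p.2.1)).2, p.2.2)

/-- The map `id × r` on `X³`. -/
def r23 {X : Type u} (r : X × X → X × X) (p : X × X × X) : X × X × X :=
  (p.1, r p.2)

/-- `(X, r)` is an involutive non-degenerate set-theoretic solution of the
Yang-Baxter equation: `X` is non-empty, `r` is a bijection of `X × X`,
`r₁₂ r₂₃ r₁₂ = r₂₃ r₁₂ r₂₃`, `r² = id`, and writing `r (x, y) = (σ_x y, τ_y x)` every `σ_x`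
and every `τ_y` is a bijection of `X`. -/
structure IsSolution {X : Type u} (r : X × X → X × X) : Prop where
  nonempty : Nonempty X
  bijective : Function.Bijective r
  braid : r12 r ∘ r23 r ∘ r12 r = r23 r ∘ r12 r ∘ r23 r
  involutive : r ∘ r = id
  left_nondeg : ∀ x : X, Function.Bijective (fun y : X => (r (x, y)).1)
  right_nondeg : ∀ y : X, Function.Bijective (fun x : X => (r (x, y)).2)

/-- `f` is a homomorphism `(X, r) → (X', r')`: `(f × f) ∘ r = r' ∘ (f × f)`. -/
def IsHom {X X' : Type u} (r : X × X → X × X) (r' : X' × X' → X' × X') (f : X → X') : Prop :=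
  Prod.map f f ∘ r = r' ∘ Prod.map f f

/-- `(X, r)` is a simple solution: it is a solution, `X` has more than one element, and every
epimorphism from `(X, r)` onto a solution `(X', r')` is bijective or has a one-element target. -/
def IsSimple {X : Type u} (r : X × X → X × X) : Prop :=
  IsSolution r ∧ Nontrivial X ∧
    ∀ (X' : Type u) (r' : X' × X' → X' × X') (f : X → X'), IsSolution r' →
      Function.Surjective f → IsHom r r' f → Function.Bijective f ∨ Nat.card X' = 1

/-- The permutation group `𝒢(X, r)`: the subgroup of `Sym X` generated by the maps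
`σ_x : y ↦ (r (x, y)).1`. -/
def permGroup {X : Type u} (r : X × X → X × X) : Subgroup (Equiv.Perm X) :=
  Subgroup.closure {g | ∃ x : X, ∀ y : X, g y = (r (x, y)).1}

/-- The sets `X_y = {y} × Z` are blocks of imprimitivity for `𝒢(Y × Z, r)`: every element
of the group maps each set `X_y` onto a set `X_{y'}`. -/
def AreBlocks {Y Z : Type u} (r : (Y × Z) × (Y × Z) → (Y × Z) × (Y × Z)) : Prop :=
  ∀ g ∈ permGroup r, ∀ y : Y, ∃ y' : Y,
    (g : Y × Z → Y × Z) '' {p | p.1 = y} = {p | p.1 = y'}

end Pool.Agent.MP_9f168b_al
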