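import Pool.Agent.MP_9f168b_al.General

namespace Pool.Agent.MP_9f168b_al

/-- the sign in `ZMod m` attached to a Boolean -/
def sg (m : ℕ) (b : Bool) : ZMod m := if b then -1 else 1

@[simp] theorem sg_true (m : ℕ) : sg m true = -1 := rfl
@[simp] theorem sg_false (m : ℕ) : sg m false = 1 := rfl

theorem sg_mul (m : ℕ) (a b : Bool) : sg m a * sg m b = sg m (xor a b) := by
  cases a <;> cases b <;> simp

@[simp] theorem sg_mul_self (m : ℕ) (a : Bool) : sg m a * sg m a = 1 := by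
  cases a <;> simp

theorem sg_mul_self_mul (m : ℕ) (a : Bool) (x : ZMod m) : sg m a * (sg m a * x) = x := by
  rw [← mul_assoc, sg_mul_self, one_mul]

/-- the permutations `σ_x` of the family -/
def fam (m : ℕ) (x : ZMod m × (Bool × Bool)) : Equiv.Perm (ZMod m × (Bool × Bool)) where
  toFun y := (sg m x.2.2 + sg m x.2.1 * y.1,
    (xor y.2.1 (decide (x.1 = sg m x.2.2 + sg m x.2.1 * y.1)), xor y.2.2 x.2.1))
  invFun y := (sg m x.2.1 * (y.1 - sg m x.2.2),
    (xor y.2.1 (decide (x.1 = y.1)), xor y.2.2 x.2.1))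
  left_inv y := by
    obtain ⟨j, n, d⟩ := y
    simp [sg_mul_self_mul]
  right_inv y := by
    obtain ⟨j, n, d⟩ := y
    simp [sg_mul_self_mul]

theorem fam_apply (m : ℕ) (i : ZMod m) (μ ε : Bool) (j : ZMod m) (ν δ : Bool) :
    fam m (i, μ, ε) (j, ν, δ) = (sg m ε + sg m μ * j,
      (xor ν (decide (i = sg m ε + sg m μ * j)), xor δ μ)) := rfl

theorem fam_symm_apply (m : ℕ) (i : ZMod m) (μ ε : Bool) (j : ZMod m) (ν δ : Bool) :
    (fam m (i, μ, ε)).symm (j, ν, δ) = (sg m μ * (j - sg m ε),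
      (xor ν (decide (i = j)), xor δ μ)) := rfl

theorem fam_C (m : ℕ) (x y z : ZMod m × (Bool × Bool)) :
    fam m x (fam m y z) = fam m (fam m x y) (fam m ((fam m (fam m x y)).symm x) z) := by
  obtain ⟨i, μ, ε⟩ := x
  obtain ⟨j, ν, δ⟩ := y
  obtain ⟨k, κ, ρ⟩ := z
  simp only [fam_apply, fam_symm_apply]
  set t : Bool := decide (i = sg m ε + sg m μ * j) with ht
  have ht' : decide (sg m ε + sg m μ * j = i) = t := by
    rw [ht]; exact decide_eq_decide.2 eq_comm
  rw [ht']
  -- the common first component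
  have hw : sg m (xor δ μ) + sg m (xor ν t) * (sg m (xor ε (xor ν t)) + sg m (xor μ t) * k) =
      sg m ε + sg m μ * (sg m δ + sg m ν * k) := by
    have e1 : sg m (xor ν t) * sg m (xor ε (xor ν t)) = sg m ε := by
      rw [sg_mul]; congr 1; cases ε <;> cases ν <;> cases t <;> rfl
    have e2 : sg m (xor ν t) * sg m (xor μ t) = sg m μ * sg m ν := by
      rw [sg_mul, sg_mul]; congr 1; cases μ <;> cases ν <;> cases t <;> rfl
    have e3 : sg m (xor δ μ) = sg m μ * sg m δ := by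
      rw [sg_mul]; congr 1; cases μ <;> cases δ <;> rfl
    rw [mul_add, ← mul_assoc, e1, e2, e3]; ring
  rw [hw]
  have d1 : decide (sg m ε + sg m μ * j = sg m ε + sg m μ * (sg m δ + sg m ν * k)) =
      decide (j = sg m δ + sg m ν * k) := by
    apply decide_eq_decide.2
    constructor
    · intro h
      have h' := congrArg (fun w => sg m μ * (w - sg m ε)) h
      simp only [add_sub_cancel_left, sg_mul_self_mul] at h'
      exact h'
    · intro h; rw [h]
  have d2 : decide (sg m (xor ν t) * (i - sg m (xor δ μ)) =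
      sg m (xor ε (xor ν t)) + sg m (xor μ t) * k) =
      decide (i = sg m ε + sg m μ * (sg m δ + sg m ν * k)) := by
    apply decide_eq_decide.2
    rw [← hw]
    constructor
    · intro h
      rw [← h, sg_mul_self_mul]; ring
    · intro h
      rw [h, add_sub_cancel_left, sg_mul_self_mul]
  rw [d1, d2]
  refine Prod.ext rfl (Prod.ext ?_ ?_)
  · simp only
    generalize decide (j = sg m δ + sg m ν * k) = a
    generalize decide (i = sg m ε + sg m μ * (sg m δ + sg m ν * k)) = b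
    cases κ <;> cases a <;> cases b <;> rfl
  · simp only
    cases ρ <;> cases ν <;> cases μ <;> cases t <;> rfl

theorem fam_T (m : ℕ) [NeZero m] :
    Function.Bijective fun x : ZMod m × (Bool × Bool) => (fam m x).symm x := by
  rw [← Finite.injective_iff_bijective]
  rintro ⟨i, μ, ε⟩ ⟨i', μ', ε'⟩ h
  simp only [fam_symm_apply, Prod.mk.injEq, decide_true] at h
  obtain ⟨h1, h2, h3⟩ := h
  have hμ : μ = μ' := by cases μ <;> cases μ' <;> simp_all
  subst hμ
  have hε : ε = ε' := by cases μ <;> cases ε <;> cases ε' <;> simp_all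
  subst hε
  have h4 := congrArg (fun w => sg m μ * w) h1
  simp only [sg_mul_self_mul, sub_left_inj] at h4
  rw [h4]

theorem fam_isSolution (m : ℕ) [NeZero m] : IsSolution (ofSigma (fam m)) :=
  isSolution_ofSigma _ (fam_C m) (fam_T m)

theorem areBlocks_of_perm {Y Z : Type} [Nonempty Z]
    (s : Y × Z → Equiv.Perm (Y × Z))
    (hs : ∀ x : Y × Z, ∃ π : Equiv.Perm Y, ∀ p : Y × Z, (s x p).1 = π p.1) :
    AreBlocks (ofSigma s) := by
  intro g hg y
  have key : ∃ π : Equiv.Perm Y, ∀ p : Y × Z, (g p).1 = π p.1 := by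
    refine mem_permGroup_ofSigma (P := fun g => ∃ π : Equiv.Perm Y, ∀ p : Y × Z, (g p).1 = π p.1)
      ⟨1, fun p => rfl⟩ ?_ ?_ hs hg
    · rintro g h ⟨π, hπ⟩ ⟨ρ, hρ⟩
      refine ⟨π * ρ, fun p => ?_⟩
      rw [Equiv.Perm.mul_apply, hπ, hρ, Equiv.Perm.mul_apply]
    · rintro g ⟨π, hπ⟩
      refine ⟨π⁻¹, fun p => ?_⟩
      rw [Equiv.Perm.eq_inv_iff_eq, ← hπ]
      simp
  obtain ⟨π, hπ⟩ := key
  refine ⟨π y, ?_⟩
  ext p
  simp only [Set.mem_image, Set.mem_ofPred_eq]
  constructor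
  · rintro ⟨q, hq, rfl⟩
    rw [hπ, hq]
  · intro hp
    refine ⟨g⁻¹ p, ?_, by simp⟩
    apply π.injective
    rw [← hπ]
    simpa using hp

theorem fam_areBlocks (m : ℕ) : AreBlocks (ofSigma (fam m)) := by
  apply areBlocks_of_perm
  rintro ⟨i, μ, ε⟩
  refine ⟨⟨fun j => sg m ε + sg m μ * j, fun j => sg m μ * (j - sg m ε), ?_, ?_⟩, ?_⟩
  · intro j; simp [sg_mul_self_mul]
  · intro j; simp [sg_mul_self_mul]
  · rintro ⟨j, ν, δ⟩; rfl

end Pool.Agent.MP_9f168b_al
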