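import Pool.Agent.MP_9f168b_al.Basic

namespace Pool.Agent.MP_9f168b_al

universe u

section general

variable {X : Type u}

/-- The map `r` attached to a family of permutations. -/
def ofSigma (s : X → Equiv.Perm X) (p : X × X) : X × X :=
  (s p.1 p.2, (s (s p.1 p.2)).symm p.1)

theorem isSolution_ofSigma [Nonempty X] (s : X → Equiv.Perm X)
    (hC : ∀ x y z : X, s x (s y z) = s (s x y) (s ((s (s x y)).symm x) z))
    (hT : Function.Bijective fun x : X => (s x).symm x) :
    IsSolution (ofSigma s) := by
  have hinv : ofSigma s ∘ ofSigma s = id := by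
    funext p
    obtain ⟨x, y⟩ := p
    simp only [Function.comp, ofSigma, Equiv.apply_symm_apply, Equiv.symm_apply_apply, id]
  have hinv' : ∀ p, ofSigma s (ofSigma s p) = p := fun p => congrFun hinv p
  refine ⟨inferInstance, ?_, ?_, hinv, ?_, ?_⟩
  · exact ⟨Function.LeftInverse.injective hinv', Function.RightInverse.surjective hinv'⟩
  · funext p
    obtain ⟨x, y, z⟩ := p
    simp only [Function.comp, r12, r23, ofSigma]
    -- abbreviations
    set a := s x y with ha
    set b := (s a).symm x with hb
    set c := s b z with hc
    set e := s y z with he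
    set g := (s e).symm y with hg
    have h1 : s a c = s x e := by rw [hc, hb, ha, he]; exact (hC x y z).symm
    have hxe : ∀ w, s x (s e w) = s (s x e) (s ((s (s x e)).symm x) w) := hC x e
    have hac : ∀ w, s a (s c w) = s (s a c) (s ((s (s a c)).symm a) w) := hC a c
    rw [h1]
    have h2 : (s (s x e)).symm a = s ((s (s x e)).symm x) g := by
      rw [Equiv.symm_apply_eq, ← hxe g, hg, Equiv.apply_symm_apply]
    rw [← h2]
    have h3 : (s c).symm b = (s ((s (s x e)).symm a)).symm ((s (s x e)).symm x) := by
      rw [Equiv.symm_apply_eq]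
      apply (s a).injective
      rw [hac, h1]
      simp [hb]
    rw [h3]
  · intro x
    exact (s x).bijective
  · intro y
    have key : ∀ x : X, (s ((s (s x y)).symm x)).symm ((s (s x y)).symm x) =
        (s y).symm ((s x).symm x) := by
      intro x
      rw [Equiv.symm_apply_eq]
      apply (s (s x y)).injective
      rw [← hC x y, Equiv.apply_symm_apply, Equiv.apply_symm_apply, Equiv.apply_symm_apply]
    constructor
    · intro x x' hxx
      simp only [ofSigma] at hxx
      have h1 := key x
      have h2 := key x'
      rw [hxx] at h1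
      rw [h1] at h2
      exact hT.1 ((s y).symm.injective h2)
    · intro u
      obtain ⟨x, hx⟩ := hT.2 (s y ((s u).symm u))
      refine ⟨x, hT.1 ?_⟩
      simp only [ofSigma]
      rw [key x]
      simp only at hx
      rw [hx, Equiv.symm_apply_apply]

theorem hom_rule {X' : Type u} {s : X → Equiv.Perm X} {r' : X' × X' → X' × X'} {f : X → X'}
    (hs : IsSolution r') (hf : IsHom (ofSigma s) r' f) {x x' y y' : X} (hx : f x = f x') :
    f (s x y) = f (s x' y') ↔ f y = f y' := by
  have h1 : f (s x y) = (r' (f x, f y)).1 := congrArg Prod.fst (congrFun hf (x, y))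
  have h2 : f (s x' y') = (r' (f x', f y')).1 := congrArg Prod.fst (congrFun hf (x', y'))
  rw [h1, h2, ← hx]
  exact (hs.left_nondeg (f x)).1.eq_iff

theorem mem_permGroup_ofSigma {s : X → Equiv.Perm X} {P : Equiv.Perm X → Prop}
    (h1 : P 1) (hmul : ∀ g h, P g → P h → P (g * h)) (hinv : ∀ g, P g → P g⁻¹)
    (hs : ∀ x, P (s x)) {g : Equiv.Perm X} (hg : g ∈ permGroup (ofSigma s)) : P g := by
  unfold permGroup at hg
  induction hg using Subgroup.closure_induction with
  | mem g hg =>
    obtain ⟨x, hx⟩ := hg
    have : g = s x := Equiv.ext hx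
    rw [this]; exact hs x
  | one => exact h1
  | mul g h _ _ ig ih => exact hmul g h ig ih
  | inv g _ ig => exact hinv g ig

end general

end Pool.Agent.MP_9f168b_al
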