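import Pool.Agent.MP_9f168b_al.Family

namespace Pool.Agent.MP_9f168b_al

section simple

variable {m : ℕ} {X' : Type} {r' : X' × X' → X' × X'} {f : ZMod m × (Bool × Bool) → X'}

theorem push (hs : IsSolution r') (hf : IsHom (ofSigma (fam m)) r' f)
    {x x' : ZMod m × (Bool × Bool)} (hx : f x = f x') (y : ZMod m × (Bool × Bool)) :
    f y = f ((fam m x).symm (fam m x' y)) := by
  have h := (hom_rule hs hf hx (y := (fam m x).symm (fam m x' y)) (y' := y)).1
    (by rw [Equiv.apply_symm_apply])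
  exact h.symm

theorem bool_ne : ∀ a b : Bool, a ≠ b → b = !a := by decide

theorem two_ne (hm : Odd m) (hm1 : m ≠ 1) : (2 : ZMod m) ≠ 0 := by
  intro h
  have h2 : ((2 : ℕ) : ZMod m) = 0 := by exact_mod_cast h
  rw [ZMod.natCast_eq_zero_iff] at h2
  have h3 := (Nat.dvd_prime Nat.prime_two).1 h2
  rcases h3 with h3 | h3
  · exact hm1 h3
  · rw [h3] at hm; exact absurd hm (by decide)

theorem exists_half (hm : Odd m) (a : ZMod m) : ∃ b : ZMod m, 2 * b = a := by
  obtain ⟨k, hk⟩ := hm
  refine ⟨(k + 1 : ℕ) * a, ?_⟩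
  rw [← mul_assoc]
  have h : (2 : ZMod m) * ((k + 1 : ℕ) : ZMod m) = 1 := by
    have h1 : ((2 * (k + 1) : ℕ) : ZMod m) = ((m + 1 : ℕ) : ZMod m) := by
      congr 1; omega
    push_cast at h1
    push_cast
    rw [h1]; simp
  rw [h, one_mul]

/-- the flip at one column forces everything -/
theorem total_of_flip (hm : Odd m) (hs : IsSolution r') (hf : IsHom (ofSigma (fam m)) r' f)
    {i : ZMod m} {ε : Bool} (h : f (i, false, ε) = f (i, true, ε))
    (a b : ZMod m × (Bool × Bool)) : f a = f b := by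
  have : NeZero m := ⟨by rintro rfl; exact absurd hm (by decide)⟩
  have V1 : ∀ (j : ZMod m) (ν δ : Bool), f (j, ν, δ) = f (-j, ν, !δ) := by
    intro j ν δ
    rw [push hs hf h (j, ν, δ)]
    simp [fam_apply, fam_symm_apply]
  have V2 : ∀ (ν δ : Bool), f (0, ν, δ) = f (0, ν, !δ) := by
    intro ν δ
    have := V1 0 ν δ
    rwa [neg_zero] at this
  have V3 : ∀ (j : ZMod m) (ν δ : Bool), f (j, ν, δ) = f (j - 2, ν, δ) := by
    intro j ν δ
    rw [push hs hf (V2 false false) (j, ν, δ)]
    congr 1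
    simp [fam_apply, fam_symm_apply]
    ring
  have V4 : ∀ (n : ℕ) (j : ZMod m) (ν δ : Bool), f (j, ν, δ) = f (j - 2 * (n : ZMod m), ν, δ) := by
    intro n
    induction n with
    | zero => intro j ν δ; simp
    | succ n ih =>
      intro j ν δ
      rw [ih j, V3]
      congr 2
      push_cast; ring
  have V5 : ∀ (j j' : ZMod m) (ν δ : Bool), f (j, ν, δ) = f (j', ν, δ) := by
    intro j j' ν δ
    obtain ⟨b, hb⟩ := exists_half hm (j - j')
    have := V4 b.val j ν δ
    rw [ZMod.natCast_zmod_val, hb] at this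
    rw [this]; congr 2; ring
  have V6 : ∀ (j j' : ZMod m) (ν δ δ' : Bool), f (j, ν, δ) = f (j', ν, δ') := by
    intro j j' ν δ δ'
    have e1 : f (0, ν, δ) = f (0, ν, δ') := by
      by_cases hd : δ = δ'
      · rw [hd]
      · rw [bool_ne δ δ' hd]; exact V2 ν δ
    rw [V5 j 0, e1, V5 0 j']
  have V7 : ∀ (ν ν' : Bool), f (i, ν, ε) = f (i, ν', ε) := by
    intro ν ν'
    cases ν <;> cases ν' <;> first | rfl | exact h | exact h.symm
  obtain ⟨j, ν, δ⟩ := a
  obtain ⟨j', ν', δ'⟩ := b
  rw [V6 j i ν δ ε, V7 ν ν', V6 i j' ν' ε δ']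

theorem flip_of_shift (hs : IsSolution r') (hf : IsHom (ofSigma (fam m)) r' f)
    {i i' : ZMod m} {μ ε : Bool} (hi : i ≠ i') (h : f (i, μ, ε) = f (i', μ, ε)) :
    ∃ (j : ZMod m), ∀ (δ : Bool), f (j, false, δ) = f (j, true, δ) := by
  refine ⟨sg m μ * (i - sg m ε), fun δ => ?_⟩
  rw [push hs hf h (sg m μ * (i - sg m ε), false, δ)]
  simp [fam_apply, fam_symm_apply, sg_mul_self_mul, hi.symm]

theorem shift_of_sign (hm : Odd m) (hm1 : m ≠ 1) (hs : IsSolution r')
    (hf : IsHom (ofSigma (fam m)) r' f)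
    {i i' : ZMod m} {μ ε : Bool} (h : f (i, μ, ε) = f (i', μ, !ε)) :
    ∃ (j j' : ZMod m), j ≠ j' ∧ f (j, false, false) = f (j', false, false) := by
  have : NeZero m := ⟨by rintro rfl; exact absurd hm (by decide)⟩
  obtain ⟨w, hw1, hw2⟩ : ∃ w : ZMod m, w ≠ i ∧ w ≠ i' := by
    by_contra hcon
    push Not at hcon
    have hsub : (Finset.univ : Finset (ZMod m)) ⊆ {i, i'} := by
      intro w _
      by_cases hw : w = i
      · simp [hw]
      · simp [hcon w hw]
    have hc := Finset.card_le_card hsub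
    rw [Finset.card_univ, ZMod.card] at hc
    have := Finset.card_le_two (a := i) (b := i')
    have hm2 : m = 2 ∨ m = 0 := by
      have : m ≤ 2 := le_trans hc this
      interval_cases m <;> simp_all
    rcases hm2 with h2 | h2 <;> rw [h2] at hm <;> exact absurd hm (by decide)
  refine ⟨sg m μ * (w - sg m (!ε)), sg m μ * (w - sg m ε), ?_, ?_⟩
  · intro he
    have he' := congrArg (fun z => sg m μ * z) he
    simp only [sg_mul_self_mul, sub_right_inj] at he'
    have h2 := two_ne hm hm1
    apply h2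
    cases ε
    · simp only [Bool.not_false, sg_true, sg_false] at he'
      linear_combination -he'
    · simp only [Bool.not_true, sg_true, sg_false] at he'
      linear_combination he'
  · rw [push hs hf h]
    simp [fam_apply, fam_symm_apply, sg_mul_self_mul, hw1.symm, hw2.symm]

theorem sign_of_mu (hm : Odd m) (hs : IsSolution r')
    (hf : IsHom (ofSigma (fam m)) r' f)
    {i i' : ZMod m} {μ ε ε' : Bool} (h : f (i, μ, ε) = f (i', !μ, ε')) :
    ∃ (j j' : ZMod m) (ν : Bool), f (j, ν, false) = f (j', ν, true) := by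
  have key : ∀ {i i' : ZMod m} {μ ε ε' : Bool}, f (i, μ, ε) = f (i', !μ, ε') →
      ∀ (j : ZMod m) (ν δ : Bool), f (j, ν, δ) = f (sg m μ * (sg m ε' - sg m ε) - j,
        xor (xor ν (decide (i' = sg m ε' - sg m μ * j))) (decide (i = sg m ε' - sg m μ * j)),
        !δ) := by
    intro i i' μ ε ε' h j ν δ
    rw [push hs hf h]
    congr 1
    simp only [fam_apply, fam_symm_apply]
    have e1 : sg m (!μ) = - sg m μ := by cases μ <;> simp
    rw [e1]
    refine Prod.ext ?_ (Prod.ext ?_ ?_)
    · simp only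
      have : sg m μ * (sg m ε' + -sg m μ * j - sg m ε) =
        sg m μ * (sg m ε' - sg m ε) - sg m μ * (sg m μ * j) := by ring
      rw [this, sg_mul_self_mul]
    · simp only [neg_mul, sub_eq_add_neg]
    · simp only
      cases δ <;> cases μ <;> rfl
  obtain ⟨j0, hj0⟩ := exists_half hm (sg m μ * (sg m ε' - sg m ε))
  have h1 := key h j0 false false
  have h0 : sg m μ * (sg m ε' - sg m ε) - j0 = j0 := by rw [← hj0]; ring
  rw [h0] at h1
  generalize xor (xor false (decide (i' = sg m ε' - sg m μ * j0)))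
    (decide (i = sg m ε' - sg m μ * j0)) = c at h1
  cases c
  · exact ⟨j0, j0, false, h1⟩
  · have h2 := key (μ := false) h1 0 false false
    simp only [Bool.xor_assoc, Bool.xor_self] at h2
    exact ⟨0, _, false, h2⟩

theorem fam_simple (hm : Odd m) (hm1 : m ≠ 1) : IsSimple (ofSigma (fam m)) := by
  have : NeZero m := ⟨by rintro rfl; exact absurd hm (by decide)⟩
  refine ⟨fam_isSolution m, ⟨(0, false, false), (0, true, false), by simp⟩, ?_⟩
  intro X' r' f hs hsurj hf
  by_cases hinj : Function.Injective f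
  · exact Or.inl ⟨hinj, hsurj⟩
  right
  have tot : ∀ a b, f a = f b := by
    have T1 : ∀ (j j' : ZMod m) (ν δ : Bool), j ≠ j' → f (j, ν, δ) = f (j', ν, δ) →
        ∀ a b, f a = f b := by
      intro j j' ν δ hj h
      obtain ⟨k, hk⟩ := flip_of_shift hs hf hj h
      exact total_of_flip hm hs hf (hk false)
    have T2 : ∀ (j j' : ZMod m) (ν : Bool), f (j, ν, false) = f (j', ν, true) →
        ∀ a b, f a = f b := by
      intro j j' ν h
      obtain ⟨k, k', hk, hkk⟩ := shift_of_sign hm hm1 hs hf (ε := false) h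
      exact T1 k k' false false hk hkk
    unfold Function.Injective at hinj
    push Not at hinj
    obtain ⟨⟨i, μ, ε⟩, ⟨i', μ', ε'⟩, h, hne⟩ := hinj
    by_cases hμ : μ = μ'
    · subst hμ
      by_cases hε : ε = ε'
      · subst hε
        refine T1 i i' μ ε ?_ h
        intro hi; exact hne (by rw [hi])
      · cases ε
        · cases ε'
          · exact absurd rfl hε
          · exact T2 _ _ _ h
        · cases ε'
          · exact T2 _ _ _ h.symm
          · exact absurd rfl hε
    · have : μ' = !μ := bool_ne μ μ' hμ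
      subst this
      obtain ⟨j, j', ν, hj⟩ := sign_of_mu hm hs hf h
      exact T2 _ _ _ hj
  rw [Nat.card_eq_one_iff_unique]
  refine ⟨⟨fun a b => ?_⟩, hs.nonempty⟩
  obtain ⟨a, rfl⟩ := hsurj a
  obtain ⟨b, rfl⟩ := hsurj b
  exact tot a b

end simple

end Pool.Agent.MP_9f168b_al
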